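import Pool.Agent.H29.LA.Targets

/-!
# lar_modules, row CLS: the classes of groups
-/

set_option autoImplicit false

namespace Pool.Agent.H68.LA

open Pool.Agent.H29.LA

/-- factorisation of a transitive action through a finite group with a given property -/
theorem cls_core (hFAC : T_FAC) {F Ω : Type} [Field F] [Field Ω] [Algebra F Ω] [IsGalois F Ω]
    (Γ : Subgroup (Ω ≃ₐ[F] Ω)) (P : ∀ (G : Type) [Group G], Prop)
    (hP : ∀ (G : Type) [Group G] [Finite G] (H : Subgroup G), P G → P H)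
    (M₀ M E : IntermediateField F Ω)
    (hM₀ : ∀ E : IntermediateField F Ω, FiniteDimensional F E → ∀ [IsGalois F E],
      P ((Γ ⊓ M₀.fixingSubgroup).map (AlgEquiv.restrictNormalHom E)))
    (hM : M₀ ≤ M) (hE : FiniteDimensional F E) (m : ℕ)
    (φ : (Γ ⊓ M.fixingSubgroup : Subgroup (Ω ≃ₐ[F] Ω)) →* Equiv.Perm (Fin m))
    (hφ : ∀ g : ↥(Γ ⊓ M.fixingSubgroup), (g : Ω ≃ₐ[F] Ω) ∈ E.fixingSubgroup → φ g = 1)
    (htr : ∀ i j, ∃ g, φ g i = j) :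
    ∃ (G : Type) (_ : Group G) (_ : Finite G) (φ' : G →* Equiv.Perm (Fin m)), P G ∧
      (∀ i j, ∃ g, φ' g i = j) ∧ ∀ h, ∃ g, φ g = φ' h := by
  obtain ⟨E', hfd, hgal, H, φ', h1, h2⟩ := hFAC F Ω Γ M₀ M E hM hE m φ hφ
  have hfin : Finite ((Γ ⊓ M₀.fixingSubgroup).map (AlgEquiv.restrictNormalHom E')) :=
    inferInstance
  refine ⟨H, inferInstance, inferInstance, φ', hP _ H (hM₀ E' hfd), fun i j => ?_, h2⟩
  obtain ⟨g, hg⟩ := htr i j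
  obtain ⟨h, hh⟩ := h1 g
  exact ⟨h, by rw [hh, hg]⟩

theorem pf_CLS (hGRA : T_GRA) (hGRC : T_GRC) (hINH : T_INH) (hFAC : T_FAC) : T_CLS := by
  intro F Ω _ _ _ _ Γ
  refine ⟨fun l k hl hk hV => ?_, fun h2 k hk hV => ?_, fun h2 p hp hp2 hV => ?_⟩
  · obtain ⟨M₀, hfd, hM₀⟩ := hV
    refine ⟨M₀, hfd, fun M E hM _ hE φ hφ htr => ?_⟩
    obtain ⟨G, _, _, φ', hG, ht, _⟩ := cls_core hFAC Γ (fun G _ => OrderPrimeTo l G)
      (fun G _ _ H => (hINH G H).1 l) M₀ M E hM₀ hM hE (l ^ k) φ hφ htr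
    exact absurd hG (hGRA.1 G l k φ' hl hk ht)
  · obtain ⟨M₀, hfd, hM₀⟩ := hV
    refine ⟨M₀, hfd, fun M E hM _ hE φ hφ htr => ⟨h2, ?_⟩⟩
    obtain ⟨G, _, _, φ', hG, ht, hb⟩ := cls_core hFAC Γ (fun G _ => CyclicSylowTwo G)
      (fun G _ _ H => (hINH G H).2.1) M₀ M E hM₀ hM hE (2 ^ k) φ hφ htr
    obtain ⟨g, hg⟩ := hGRA.2 G k φ' hk ht hG
    obtain ⟨g', hg'⟩ := hb g
    exact ⟨g', by rw [hg', hg]⟩
  · obtain ⟨M₀, hfd, hM₀⟩ := hV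
    refine ⟨M₀, hfd, fun M E hM _ hE φ hφ htr => ⟨h2, ?_⟩⟩
    obtain ⟨G, _, _, φ', hG, ht, hb⟩ := cls_core hFAC Γ (fun G _ => Supersolvable G)
      (fun G _ _ H => (hINH G H).2.2) M₀ M E hM₀ hM hE (2 * p) φ hφ htr
    obtain ⟨g, hg⟩ := hGRC G p φ' hp hp2 ht hG
    obtain ⟨g', hg'⟩ := hb g
    exact ⟨g', by rw [hg', hg]⟩

end Pool.Agent.H68.LA
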